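import Pool.Agent.WAP.StmtsM
import Pool.Agent.WAP.Alg

/-! Row RCG of squad WAP (MP_ff4683_nt): every open set is reached from `Q = O`. -/

set_option autoImplicit false

namespace Pool.Agent.WAP.H67

open Classical Polynomial WeierstrassCurve.Affine

theorem fin_x {F : Type} [Field F] {d : F} (hd : d ≠ 0) (c : F) :
    {P : Pt d | xn P = c}.Finite := by
  by_cases h : ∃ P0 : Pt d, P0 ≠ 0 ∧ xn P0 = c
  · obtain ⟨P0, h0, h1⟩ := h
    refine Set.Finite.subset (Set.toFinite ({0, P0, -P0} : Set (Pt d))) ?_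
    intro P hP
    have hP1 : xn P = c := hP
    by_cases h2 : P = 0
    · left
      exact h2
    · rcases G.eq_or_neg_of_xn hd h2 h0 (by rw [hP1, h1]) with h3 | h3
      · right
        left
        exact h3
      · right
        right
        exact h3
  · refine Set.Finite.subset (Set.toFinite ({0} : Set (Pt d))) ?_
    intro P hP
    have hP1 : xn P = c := hP
    by_contra h2
    exact h ⟨P, h2, hP1⟩

theorem xn_eqn {F : Type} [Field F] {d : F} (hd : d ≠ 0) (P : Pt d) :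
    cY P ^ 2 = d ^ 3 * (xn P * (xn P - 1) * (xn P + 1)) := by
  have h1 : cX P = d * xn P := by
    unfold xn
    field_simp
  have h2 : cY P ^ 2 = cX P ^ 3 - d ^ 2 * cX P := by
    rcases P with _ | ⟨x, y, h⟩
    · show (0 : F) ^ 2 = 0 ^ 3 - d ^ 2 * 0
      ring
    · exact (W_equation d x y).mp h.1
  rw [h2, h1]
  ring

/-- there are only finitely many bad points -/
theorem fin_bad {F : Type} [Field F] {d : F} (h2 : (2 : F) ≠ 0) (hd : d ≠ 0) :
    {P : Pt d | cY P = 0 ∨ 2 * xn P = -1}.Finite := by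
  refine Set.Finite.subset ((((fin_x hd (0 : F)).union (fin_x hd (1 : F))).union
    (fin_x hd (-1 : F))).union (fin_x hd (-1 / 2 : F))) ?_
  rintro P (h | h)
  · have h3 := xn_eqn hd P
    rw [h] at h3
    have h4 : xn P * (xn P - 1) * (xn P + 1) = 0 := by
      rcases mul_eq_zero.mp (show d ^ 3 * (xn P * (xn P - 1) * (xn P + 1)) = 0 by
        rw [← h3]; ring) with h5 | h5
      · exact absurd h5 (pow_ne_zero 3 hd)
      · exact h5
    left
    rcases mul_eq_zero.mp h4 with h5 | h5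
    · left
      rcases mul_eq_zero.mp h5 with h6 | h6
      · left
        exact h6
      · right
        exact sub_eq_zero.mp h6
    · right
      exact eq_neg_of_add_eq_zero_left h5
  · right
    show xn P = -1 / 2
    field_simp
    linear_combination h

theorem alg1 {F : Type} [Field F] [Algebra GaussianInt F] {d : F} (a b c e : GaussianInt)
    (h : a * e - b * c = 1) (P Q t p q : Pt d) :
    sm e (sm a P + sm b Q + t + p) + sm (-b) q =
      P + (sm b (sm c P + sm e Q) + sm e t + sm e p + sm (-b) q) := by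
  rw [G.sm_add, G.sm_add, G.sm_add, G.sm_add, ← G.mul_sm, ← G.mul_sm, ← G.mul_sm, ← G.mul_sm]
  have h1 : e * a = 1 + b * c := by linear_combination h
  rw [h1, G.add_sm, G.one_sm, mul_comm e b]
  abel

theorem alg2 {F : Type} [Field F] [Algebra GaussianInt F] {d : F} (a b c e : GaussianInt)
    (h : a * e - b * c = 1) (P Q t p q : Pt d) :
    sm (-c) (sm a P + sm b Q + t + p) + sm a q =
      Q + (sm (-a) (sm c P + sm e Q) + sm (-c) t + sm (-c) p + sm a q) := by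
  rw [G.sm_add, G.sm_add, G.sm_add, G.sm_add, ← G.mul_sm, ← G.mul_sm, ← G.mul_sm, ← G.mul_sm]
  have h1 : -c * b = 1 + -a * e := by linear_combination h
  have h2 : -c * a = -a * c := by ring
  rw [h1, G.add_sm, G.one_sm, h2]
  abel

theorem rcg (gdf : GdfStmt) (fra : FraStmt) (kuc : KucStmt) (nrm : NrmStmt) (uni : UniStmt)
    (zlv : ZlvStmt) (lvb : LvbStmt) (inf : InfStmt) (ngl : NglStmt) : RcgRow := by
  intro F _ _ ϖ hL h2 V hV hz
  obtain ⟨z0, hz0V, hz0U⟩ := hz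
  have hG : GoodF F := gdf F (Or.inl ⟨ϖ, hL⟩)
  have h20 : (2 : F) ≠ 0 := by
    have h3 := hG.1 2 (by decide)
    rwa [map_ofNat] at h3
  obtain ⟨d, P0, Q0, hd, hk⟩ := nrm F ϖ hL z0 hz0U
  have hd0 : d ≠ 0 := by
    rintro rfl
    rcases hd with h | h
    · simp at h
    · have := hL.uni
      unfold qn at h
      rw [norm_zero] at h
      linarith
  rw [hk] at hz0V hz0U
  obtain ⟨N, hN⟩ := kuc F hG d hd0 P0 Q0 hz0U V hV hz0V
  obtain ⟨lv1, lv2⟩ := lvb F ϖ hL d hd0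
  obtain ⟨ρ, hρ, hρN⟩ := lv1 N
  obtain ⟨a, b, c, e, hdet, hQ1⟩ := uni F ϖ hL h2 d hd P0 Q0 ρ hρ
  obtain ⟨N1, hN1⟩ := lv2 ρ hρ
  obtain ⟨z1, z2, -⟩ := zlv F ϖ hL d hd0
  -- choose `t`
  have hbadfin : {t : Pt d | cY (sm a P0 + sm b Q0 + t) = 0 ∨
      2 * xn (sm a P0 + sm b Q0 + t) = -1}.Finite := by
    have h3 := (fin_bad h20 hd0).preimage
      (f := fun t : Pt d => sm a P0 + sm b Q0 + t) (fun x _ y _ hxy => add_left_cancel hxy)
    exact h3
  obtain ⟨t, ht1, ht2⟩ := (inf F hG d hd0 N1).exists_notMem_finite hbadfin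
  have htL : Lev ρ t := hN1 t ht1
  have hY : cY (sm a P0 + sm b Q0 + t) ≠ 0 := fun h => ht2 (Or.inl h)
  have hX : 2 * xn (sm a P0 + sm b Q0 + t) ≠ -1 := fun h => ht2 (Or.inr h)
  obtain ⟨r, hr, hr2⟩ := ngl F hG d hd0 (sm a P0 + sm b Q0 + t) hY N1
  have hxe := xn_eqn hd0 (sm a P0 + sm b Q0 + t)
  have hY2 : cY (sm a P0 + sm b Q0 + t) ^ 2 ≠ 0 := pow_ne_zero 2 hY
  refine ⟨e, -b, -c, a, xn (sm a P0 + sm b Q0 + t), r, ?_, hr, ?_, ?_, ?_, hX, ?_⟩
  · linear_combination hdet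
  · intro h
    apply hY2
    rw [hxe, h]
    ring
  · intro h
    apply hY2
    rw [hxe, h]
    ring
  · intro h
    apply hY2
    rw [hxe, h]
    ring
  · intro z hz
    obtain ⟨p, q, hp, hq, hzk⟩ := hr2 z hz
    have hpL : Lev ρ p := hN1 p hp
    have hqL : Lev ρ q := hN1 q hq
    have hzU : OnU z := hz.1
    have hf := fra F h20 d (sm a P0 + sm b Q0 + t + p) q e (-b) (-c) a hd0 (by rw [← hzk]; exact hzU)
    rw [alg1 a b c e hdet, alg2 a b c e hdet, ← hzk] at hf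
    have hL1 : Lev ρ (sm b (sm c P0 + sm e Q0) + sm e t + sm e p + sm (-b) q) :=
      (z1 ρ _ _ (z1 ρ _ _ (z1 ρ _ _ (z2 ρ b _ hQ1) (z2 ρ e t htL)).1 (z2 ρ e p hpL)).1
        (z2 ρ (-b) q hqL)).1
    have hL2 : Lev ρ (sm (-a) (sm c P0 + sm e Q0) + sm (-c) t + sm (-c) p + sm a q) :=
      (z1 ρ _ _ (z1 ρ _ _ (z1 ρ _ _ (z2 ρ (-a) _ hQ1) (z2 ρ (-c) t htL)).1 (z2 ρ (-c) p hpL)).1
        (z2 ρ a q hqL)).1
    obtain ⟨hv, hu⟩ := hN _ _ (hρN _ hL1) (hρN _ hL2)
    rw [← hf] at hv hu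
    refine ⟨_, hv, hzU, hu, ?_, rfl⟩
    linear_combination hdet

end Pool.Agent.WAP.H67
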