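import Pool.Agent.WAP.StmtsT

/-! Row RG1 of squad WAP (MP_ff4683_nt): the region `RegO` is relatively open. -/

namespace Pool.Agent.WAP.H67

open Classical Filter Topology

theorem continuousAt_mz {F : Type} [NormedField F] (z : F × F × F) (hx : z.1 ≠ 0)
    (ht : z.2.1 ^ 2 - 1 ≠ 0) : ContinuousAt (fun w : F × F × F => mz w) z := by
  have h1 : ContinuousAt (fun w : F × F × F => w.2.2) z :=
    (continuous_snd.comp continuous_snd).continuousAt
  have h2 : ContinuousAt (fun w : F × F × F => w.1 * (w.2.1 ^ 2 - 1)) z :=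
    (continuous_fst.mul (((continuous_fst.comp continuous_snd).pow 2).sub
      continuous_const)).continuousAt
  exact h1.div h2 (mul_ne_zero hx ht)

theorem rg1 : Rg1Stmt := by
  intro F _ _ ϖ hL z hz
  obtain ⟨hU, h1, h2, h3⟩ := hz
  have hx : z.1 ≠ 0 := by
    intro h
    rw [h, norm_zero] at h1
    linarith
  have ht : z.2.1 ^ 2 - 1 ≠ 0 := by
    intro h
    have h4 : z.2.1 ^ 2 = 1 := by linear_combination h
    have h5 : ‖z.2.1‖ ^ 2 = 1 := by rw [← norm_pow, h4, norm_one]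
    nlinarith
  have e1 : ∀ᶠ w : F × F × F in 𝓝 z, 1 < ‖w.1‖ :=
    (continuous_fst.norm.continuousAt).eventually_const_lt h1
  have e2 : ∀ᶠ w : F × F × F in 𝓝 z, 1 < ‖w.2.1‖ :=
    ((continuous_fst.comp continuous_snd).norm.continuousAt).eventually_const_lt h2
  have e3 : ∀ᶠ w : F × F × F in 𝓝 z, ‖mz w - mz z‖ < 1 := by
    have h4 : ContinuousAt (fun w : F × F × F => ‖mz w - mz z‖) z :=
      ((continuousAt_mz z hx ht).sub continuousAt_const).norm
    have h5 : (fun w : F × F × F => ‖mz w - mz z‖) z < 1 := by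
      show ‖mz z - mz z‖ < 1
      rw [sub_self, norm_zero]
      exact one_pos
    exact h4.eventually_lt_const h5
  obtain ⟨O, hO1, hO2, hO3⟩ := eventually_nhds_iff.mp ((e1.and e2).and e3)
  refine ⟨O, hO2, hO3, ?_⟩
  intro w hw hwU
  obtain ⟨⟨a1, a2⟩, a3⟩ := hO1 w hw
  refine ⟨hwU, a1, a2, ?_⟩
  have h6 : mz w = (mz w - mz z) + mz z := by ring
  rw [h6]
  exact (hL.ultra _ _).trans (max_le a3.le h3)

end Pool.Agent.WAP.H67
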