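import Pool.Agent.WAP.StmtsI

/-! Row RUB of squad WAP (MP_ff4683_nt): base change for words. -/

namespace Pool.Agent.WAP.H67

open Classical

/-- `OnU` descends along a homomorphism of fields. -/
theorem onU_of_bc {K F : Type} [Field K] [Field F] [Algebra GaussianInt K] [Algebra GaussianInt F]
    (σ : K →ₐ[GaussianInt] F) (z : K × K × K) (h : OnU (bc σ z)) : OnU z := by
  obtain ⟨h1, h2⟩ := h
  have inj : Function.Injective σ := σ.toRingHom.injective
  constructor
  · apply inj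
    have h3 : (σ z.2.2) ^ 2 = cub (σ z.1) * cub (σ z.2.1) := h1
    unfold cub at h3 ⊢
    rw [map_pow, h3, map_mul, map_sub, map_sub, map_pow, map_pow]
  · intro h0
    apply h2
    show σ z.2.2 = 0
    rw [h0, map_zero]

theorem rub : BchStmt → RubStmt := by
  intro hB K F _ _ _ _ σ h2 L
  induction L with
  | nil =>
    intro z z' h
    obtain ⟨h1, h3⟩ := h
    exact ⟨z, ⟨onU_of_bc σ z h1, rfl⟩, h3.symm⟩
  | cons l L ih =>
    intro z z' h
    obtain ⟨w, hw1, hw2⟩ := h
    obtain ⟨z1, hz1, hz2⟩ := hB K F σ h2 l z w hw1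
    rw [← hz2] at hw2
    obtain ⟨z2, hz3, hz4⟩ := ih z1 z' hw2
    exact ⟨z2, ⟨z1, hz1, hz3⟩, hz4⟩

end Pool.Agent.WAP.H67
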